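import Mathlib

/-!
# Jacobsthal sums: an elementary bound

`S = ∑ x, χ (d (x ^ 3 - x))` over a finite field `k` of odd characteristic has `S ^ 2 ≤ 8 |k|`
(second moment over all quartic twists).
-/

namespace GWA

namespace Jac

variable {k : Type} [Field k] [Fintype k] [DecidableEq k]

/-- the sum `∑ x, χ (x (x ^ 2 - a))` -/
def J (a : k) : ℤ := ∑ x : k, quadraticChar k (x * (x ^ 2 - a))

theorem chi_sq_mul {c : k} (hc : c ≠ 0) (x : k) :
    quadraticChar k (c ^ 2 * x) = quadraticChar k x := by
  rw [map_mul, quadraticChar_sq_one' hc, one_mul]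

theorem J_twist (a : k) {c : k} (hc : c ≠ 0) : J (a * c ^ 4) = J a := by
  unfold J
  have hc2 : c ^ 2 ≠ 0 := pow_ne_zero 2 hc
  rw [← Equiv.sum_comp (Equiv.mulLeft₀ (c ^ 2) hc2)]
  refine Finset.sum_congr rfl fun x _ => ?_
  have : (Equiv.mulLeft₀ (c ^ 2) hc2 x) * ((Equiv.mulLeft₀ (c ^ 2) hc2 x) ^ 2 - a * c ^ 4)
      = (c ^ 3) ^ 2 * (x * (x ^ 2 - a)) := by
    rw [Equiv.mulLeft₀_apply]; ring
  rw [this, chi_sq_mul (pow_ne_zero 3 hc)]

theorem inner_sum (h2 : (2 : k) ≠ 0) (u v : k) :
    ∑ a : k, quadraticChar k ((u - a) * (v - a)) =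
      if u = v then (Fintype.card k : ℤ) - 1 else -1 := by
  have hchar : ringChar k ≠ 2 := by
    intro h
    apply h2
    have := ringChar.spec k 2
    rw [h] at this
    exact_mod_cast this.2 dvd_rfl
  rw [← Equiv.sum_comp (Equiv.subLeft u)]
  have hrw : ∀ t : k, (u - (Equiv.subLeft u) t) * (v - (Equiv.subLeft u) t)
      = t * (t + (v - u)) := by
    intro t
    rw [Equiv.subLeft_apply]; ring
  simp only [hrw]
  split_ifs with huv
  · subst huv
    have : ∀ t : k, quadraticChar k (t * (t + (u - u))) = 1 - (if t = 0 then 1 else 0) := by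
      intro t
      by_cases ht : t = 0
      · simp [ht]
      · rw [sub_self, add_zero, ← sq, quadraticChar_sq_one' ht]; simp [ht]
    simp only [this, Finset.sum_sub_distrib, Finset.sum_ite_eq', Finset.mem_univ, if_true,
      Finset.sum_const, Finset.card_univ, nsmul_eq_mul, mul_one]
  · have hw : v - u ≠ 0 := sub_ne_zero.2 (Ne.symm huv)
    have : ∀ t : k, quadraticChar k (t * (t + (v - u))) =
        quadraticChar k (1 + (v - u) * t⁻¹) - (if t = 0 then 1 else 0) := by
      intro t
      by_cases ht : t = 0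
      · simp [ht]
      · have : t * (t + (v - u)) = t ^ 2 * (1 + (v - u) * t⁻¹) := by
          field_simp
        rw [this, chi_sq_mul ht]; simp [ht]
    simp only [this, Finset.sum_sub_distrib, Finset.sum_ite_eq', Finset.mem_univ, if_true]
    have h0 : ∑ t : k, quadraticChar k (1 + (v - u) * t⁻¹) = 0 := by
      refine (Equiv.sum_comp (Equiv.inv k)
        (fun s => quadraticChar k (1 + (v - u) * s))).trans ?_
      refine (Equiv.sum_comp (Equiv.mulLeft₀ (v - u) hw)
        (fun s => quadraticChar k (1 + s))).trans ?_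
      exact (Equiv.sum_comp (Equiv.addLeft (1 : k))
        (fun s => quadraticChar k s)).trans (quadraticChar_sum_zero hchar)
    rw [h0]; ring

theorem second_moment (h2 : (2 : k) ≠ 0) :
    ∑ a : k, (J a) ^ 2 ≤ 2 * (Fintype.card k : ℤ) * ((Fintype.card k : ℤ) - 1) := by
  have hchar : ringChar k ≠ 2 := by
    intro h
    apply h2
    have := ringChar.spec k 2
    rw [h] at this
    exact_mod_cast this.2 dvd_rfl
  have h1 : ∑ a : k, (J a) ^ 2 = ∑ x : k, ∑ y : k, quadraticChar k (x * y) *
      (if x ^ 2 = y ^ 2 then (Fintype.card k : ℤ) - 1 else -1) := by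
    have : ∀ a : k, (J a) ^ 2 = ∑ x : k, ∑ y : k, quadraticChar k (x * y) *
        quadraticChar k ((x ^ 2 - a) * (y ^ 2 - a)) := by
      intro a
      unfold J
      rw [sq, Finset.sum_mul_sum]
      refine Finset.sum_congr rfl fun x _ => Finset.sum_congr rfl fun y _ => ?_
      rw [← map_mul, ← map_mul]
      congr 1; ring
    simp only [this]
    rw [Finset.sum_comm]
    refine Finset.sum_congr rfl fun x _ => ?_
    rw [Finset.sum_comm]
    refine Finset.sum_congr rfl fun y _ => ?_
    rw [← Finset.mul_sum, inner_sum h2]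
  have h3 : ∀ x y : k, quadraticChar k (x * y) *
      (if x ^ 2 = y ^ 2 then (Fintype.card k : ℤ) - 1 else -1) =
      (Fintype.card k : ℤ) * (if x ^ 2 = y ^ 2 then quadraticChar k (x * y) else 0)
        - quadraticChar k x * quadraticChar k y := by
    intro x y
    rw [map_mul]
    split_ifs <;> ring
  have h4 : ∑ a : k, (J a) ^ 2 = (Fintype.card k : ℤ) *
      ∑ x : k, ∑ y : k, (if x ^ 2 = y ^ 2 then quadraticChar k (x * y) else 0) := by
    rw [h1]
    simp only [h3, Finset.sum_sub_distrib, ← Finset.mul_sum, ← Finset.sum_mul]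
    rw [quadraticChar_sum_zero hchar]; ring
  have h5 : ∀ x : k, ∑ y : k, (if x ^ 2 = y ^ 2 then quadraticChar k (x * y) else 0) ≤
      2 * (1 - (if x = 0 then 1 else 0)) := by
    intro x
    by_cases hx : x = 0
    · subst hx
      simp
    · simp only [hx, if_false, sub_zero, mul_one]
      rw [← Finset.sum_filter]
      have hsub : (Finset.univ.filter fun y : k => x ^ 2 = y ^ 2) ⊆ {x, -x} := by
        intro y hy
        rw [Finset.mem_filter] at hy
        rcases sq_eq_sq_iff_eq_or_eq_neg.1 hy.2.symm with h | h <;> simp [h]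
      have hle : ∀ y ∈ (Finset.univ.filter fun y : k => x ^ 2 = y ^ 2),
          quadraticChar k (x * y) ≤ 1 := by
        intro y _
        by_cases h : x * y = 0
        · simp [h]
        · rcases quadraticChar_dichotomy h with h | h <;> rw [h] <;> norm_num
      calc _ ≤ ∑ y ∈ (Finset.univ.filter fun y : k => x ^ 2 = y ^ 2), (1 : ℤ) :=
            Finset.sum_le_sum hle
        _ = ((Finset.univ.filter fun y : k => x ^ 2 = y ^ 2).card : ℤ) := by simp
        _ ≤ 2 := by
            have := (Finset.card_le_card hsub).trans Finset.card_le_two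
            exact_mod_cast this
  rw [h4]
  have h6 : ∑ x : k, (2 * (1 - (if x = 0 then 1 else 0)) : ℤ) =
      2 * ((Fintype.card k : ℤ) - 1) := by
    rw [← Finset.mul_sum]
    simp [Finset.sum_sub_distrib]
  calc _ ≤ (Fintype.card k : ℤ) * ∑ x : k, (2 * (1 - (if x = 0 then 1 else 0)) : ℤ) :=
        mul_le_mul_of_nonneg_left (Finset.sum_le_sum fun x _ => h5 x) (by positivity)
    _ = _ := by rw [h6]; ring

theorem fourth_moment_le :
    ((Fintype.card k : ℤ) - 1) * (J (1 : k)) ^ 2 ≤ 4 * ∑ a : k, (J a) ^ 2 := by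
  have h1 : ((Fintype.card k : ℤ) - 1) * (J (1 : k)) ^ 2 ≤ ∑ c : k, (J (c ^ 4)) ^ 2 := by
    have : ∀ c : k, (1 - (if c = 0 then 1 else 0)) * (J (1 : k)) ^ 2 ≤ (J (c ^ 4)) ^ 2 := by
      intro c
      by_cases hc : c = 0
      · simp only [hc, if_true, sub_self, zero_mul]; positivity
      · have := J_twist (1 : k) hc
        rw [one_mul] at this
        simp [hc, this]
    calc _ = ∑ c : k, (1 - (if c = 0 then 1 else 0)) * (J (1 : k)) ^ 2 := by
          rw [← Finset.sum_mul]
          simp [Finset.sum_sub_distrib]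
      _ ≤ _ := Finset.sum_le_sum fun c _ => this c
  refine h1.trans ?_
  rw [← Finset.sum_fiberwise' Finset.univ (fun c : k => c ^ 4) (fun a => (J a) ^ 2),
    Finset.mul_sum]
  refine Finset.sum_le_sum fun a _ => ?_
  rw [Finset.sum_const, nsmul_eq_mul]
  refine mul_le_mul_of_nonneg_right ?_ (sq_nonneg _)
  have hsub : (Finset.univ.filter fun c : k => c ^ 4 = a) ⊆
      (Polynomial.nthRoots 4 a).toFinset := by
    intro c hc
    rw [Multiset.mem_toFinset, Polynomial.mem_nthRoots (by norm_num)]
    exact (Finset.mem_filter.1 hc).2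
  have := (Finset.card_le_card hsub).trans
    ((Multiset.toFinset_card_le _).trans (Polynomial.card_nthRoots 4 a))
  exact_mod_cast this

end Jac

open Jac in
theorem jac_bound (k : Type) [Field k] [Fintype k] [DecidableEq k] (i : k) (hi : i ^ 2 = -1)
    (h2 : (2 : k) ≠ 0) (d : k) (hd : d ≠ 0) :
    (∑ x : k, quadraticChar k (d * (x ^ 3 - x))) ^ 2 ≤ 8 * (Fintype.card k : ℤ) := by
  have h1 : ∑ x : k, quadraticChar k (d * (x ^ 3 - x)) = quadraticChar k d * J (1 : k) := by
    unfold J
    rw [Finset.mul_sum]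
    refine Finset.sum_congr rfl fun x _ => ?_
    rw [← map_mul]
    congr 1; ring
  have h3 : (quadraticChar k d) ^ 2 = 1 := quadraticChar_sq_one hd
  rw [h1, mul_pow, h3, one_mul]
  have hq : (0 : ℤ) < (Fintype.card k : ℤ) - 1 := by
    have : 1 < Fintype.card k := Fintype.one_lt_card
    omega
  have h4 := (fourth_moment_le (k := k)).trans
    (mul_le_mul_of_nonneg_left (second_moment h2) (by norm_num : (0 : ℤ) ≤ 4))
  have h5 : ((Fintype.card k : ℤ) - 1) * (J (1 : k)) ^ 2 ≤
      ((Fintype.card k : ℤ) - 1) * (8 * (Fintype.card k : ℤ)) := by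
    calc _ ≤ _ := h4
      _ = _ := by ring
  exact le_of_mul_le_mul_left h5 hq

end GWA
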