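import Pool.Agent.Helper66.TU.Defs
import Pool.Agent.Helper64.TU.JAC

/-!
# A lower bound for the number of classes of points modulo the points near zero
-/

namespace GWA

namespace RMap

variable {K : Type} [NormedField K] [Algebra GaussianInt K] {k : Type} [Field k]
  [Algebra GaussianInt k] {r : K → k} {π : GaussianInt}

theorem r_zero (hr : RMap K k r) : r 0 = 0 := by
  rw [hr.eq_zero 0 (by simp)]; simp

theorem r_sub (h : LHU K π) (hr : RMap K k r) {x y : K} (hx : ‖x‖ ≤ 1) (hy : ‖y‖ ≤ 1) :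
    r (x - y) = r x - r y := by
  have h1 := hr.add (x - y) y ((h.norm_sub_le x y).trans (max_le hx hy)) hy
  rw [sub_add_cancel] at h1
  rw [h1, add_sub_cancel_right]

theorem r_eq_iff (h : LHU K π) (hr : RMap K k r) {x y : K} (hx : ‖x‖ ≤ 1) (hy : ‖y‖ ≤ 1) :
    r x = r y ↔ ‖x - y‖ < 1 := by
  rw [← hr.eq_zero _ ((h.norm_sub_le x y).trans (max_le hx hy)), hr.r_sub h hx hy, sub_eq_zero]

theorem r_ff (h : LHU K π) (hr : RMap K k r) {x : K} (hx : ‖x‖ ≤ 1) :
    ‖ff x‖ ≤ 1 ∧ r (ff x) = r x ^ 3 - r x := by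
  have h2 : ‖x * x‖ ≤ 1 := by
    rw [norm_mul]; exact mul_le_one₀ hx (norm_nonneg _) hx
  have h3 : ‖x * (x * x)‖ ≤ 1 := by
    rw [norm_mul]; exact mul_le_one₀ hx (norm_nonneg _) h2
  have e : ff x = x * (x * x) - x := by unfold ff; ring
  rw [e]
  refine ⟨(h.norm_sub_le _ _).trans (max_le h3 hx), ?_⟩
  rw [hr.r_sub h h3 hx, hr.mul x _ hx h2, hr.mul x x hx hx]
  ring

theorem norm_one_of_ne (hr : RMap K k r) {x : K} (hx : ‖x‖ ≤ 1) (h0 : r x ≠ 0) : ‖x‖ = 1 := by
  refine le_antisymm hx ?_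
  by_contra hc
  push Not at hc
  exact h0 ((hr.eq_zero x hx).2 hc)

theorem ne_of_norm_one (hr : RMap K k r) {x : K} (hx : ‖x‖ = 1) : r x ≠ 0 := by
  intro h0
  have := (hr.eq_zero x hx.le).1 h0
  rw [hx] at this
  exact lt_irrefl _ this

theorem two_ne (h : LHU K π) (hr : RMap K k r) : (2 : k) ≠ 0 := by
  have h1 := hr.ne_of_norm_one (h.norm_eq_one h.odd)
  rw [hr.coe] at h1
  rwa [map_ofNat] at h1

end RMap

section

variable {K : Type} [NormedField K] [Algebra GaussianInt K] [NeZero (2 : K)] [DecidableEq K]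
  {π : GaussianInt} {k : Type} [Field k] [Algebra GaussianInt k] {r : K → k}

omit [DecidableEq K] in
/-- points with a given residue -/
theorem LHU.pt_of_res (h : LHU K π) (hr : RMap K k r) {d : Kˣ} (hd : ‖(d : K)‖ = 1) {c : k}
    (h0 : r d * (c ^ 3 - c) ≠ 0) (hs : IsSquare (r d * (c ^ 3 - c))) :
    ∃ P : E (d : K), P ≠ 0 ∧ ‖nx P‖ ≤ 1 ∧ r (nx P) = c ∧ ‖ff (nx P)‖ = 1 := by
  obtain ⟨x, hx, rfl⟩ := hr.surj c
  obtain ⟨hf, hrf⟩ := hr.r_ff h hx
  rw [← hrf] at h0 hs
  have hf1 : ‖ff x‖ = 1 := hr.norm_one_of_ne hf (right_ne_zero_of_mul h0)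
  obtain ⟨c, hc⟩ := hs
  obtain ⟨s, hs, rfl⟩ := hr.surj c
  rw [← hr.mul _ _ hd.le hf] at h0 hc
  rw [← hr.mul _ _ hs hs] at hc
  have hs0 : r (s * s) ≠ 0 := by rw [← hc]; exact h0
  have hss : ‖s * s‖ ≤ 1 := by
    rw [norm_mul]; exact mul_le_one₀ hs (norm_nonneg _) hs
  have hss1 : ‖s * s‖ = 1 := hr.norm_one_of_ne hss hs0
  have hdf : ‖(d : K) * ff x‖ ≤ 1 := by rw [norm_mul, hd, hf1]; norm_num
  have hlt := (hr.r_eq_iff h hdf hss).1 hc
  have hne : s * s ≠ 0 := by
    intro hz
    rw [hz, norm_zero] at hss1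
    norm_num at hss1
  have hsne : s ≠ 0 := fun hz => hne (by rw [hz, mul_zero])
  have h4 : ‖(4 : K)‖ = 1 := by
    have := h.norm_two h.odd
    have e : (4 : K) = 2 * 2 := by norm_num
    rw [e, norm_mul, this]; norm_num
  obtain ⟨y, hy, -⟩ := h.sqrt (x := (d : K) * ff x / (s * s)) (by
    have e : (d : K) * ff x / (s * s) - 1 = ((d : K) * ff x - s * s) / (s * s) := by
      field_simp
    rw [e, norm_div, hss1, div_one, h4]
    exact hlt)
  obtain ⟨P, hP, hnx, -⟩ := exists_pt d.ne_zero (x := x) (s := s * y) (by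
    rw [mul_pow, hy]
    field_simp)
  exact ⟨P, hP, by rw [hnx]; exact hx, by rw [hnx], by rw [hnx]; exact hf1⟩

/-- the quotient is finite -/
theorem LHU.finite_QM (h : LHU K π) (hr : RMap K k r) [Finite k] (d : Kˣ) :
    Finite (h.QM d) := by
  have hout : ∀ m : h.QM d, m ≠ 0 →
      (Quotient.out m : E (d : K)) ≠ 0 ∧ ‖nx (Quotient.out m : E (d : K))‖ ≤ 1 := by
    intro m hm
    rw [← h.not_mem_nb_iff d.ne_zero]
    intro hmem
    apply hm
    have h1 : (Submodule.Quotient.mk (Quotient.out m) : h.QM d) = m := Quotient.out_eq m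
    rw [← h1, Submodule.Quotient.mk_eq_zero]
    exact hmem
  have h3 : Finite {m : h.QM d // m ≠ 0} := (card_le_of_two (A := {m : h.QM d // m ≠ 0})
    (fun m => ⟨-m.1, neg_ne_zero.2 m.2⟩)
    (fun m => r (nx (Quotient.out m.1 : E (d : K)))) (by
      rintro ⟨m, hm⟩ ⟨m', hm'⟩ hmm
      have h1 : (Submodule.Quotient.mk (Quotient.out m) : h.QM d) = m := Quotient.out_eq m
      have h1' : (Submodule.Quotient.mk (Quotient.out m') : h.QM d) = m' := Quotient.out_eq m'
      obtain ⟨hP, hx⟩ := hout m hm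
      obtain ⟨hP', hx'⟩ := hout m' hm'
      have hxx := (hr.r_eq_iff h hx hx').1 hmm
      rcases h.res_diff h.odd d.ne_zero hP hP' hx hx' hxx with h3 | h3
      · left
        apply Subtype.ext
        change m = m'
        rw [← h1, ← h1', Submodule.Quotient.eq]
        exact h3
      · right
        apply Subtype.ext
        change m = -m'
        rw [← h1, ← h1', ← Submodule.Quotient.mk_neg, Submodule.Quotient.eq, sub_neg_eq_add]
        exact h3)).1
  exact (card_eq_succ (M := h.QM d)).1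

/-- twice a point with `f(x)` a unit is not near zero -/
theorem LHU.double_not_mem (h : LHU K π) {d : Kˣ} {P : E (d : K)} (hP : P ≠ 0)
    (hx : ‖nx P‖ ≤ 1) (hf : ‖ff (nx P)‖ = 1) : P + P ∉ nb π (d : K) 0 := by
  have hf0 : ff (nx P) ≠ 0 := by
    intro h0
    rw [h0, norm_zero] at hf
    norm_num at hf
  obtain ⟨h1, h2⟩ := nx_double d.ne_zero hP hf0
  rw [h.mem_nb_zero_iff d.ne_zero]
  rintro (h3 | h3)
  · exact h1 h3
  · have h4 : ‖(4 : K)‖ = 1 := by
      have := h.norm_two h.odd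
      have e : (4 : K) = 2 * 2 := by norm_num
      rw [e, norm_mul, this]; norm_num
    have h5 := congrArg norm h2
    rw [norm_mul, norm_mul, h4, hf, norm_pow] at h5
    have h6 : ‖nx P ^ 2 + 1‖ ≤ 1 := by
      refine (h.ultra _ _).trans (max_le ?_ (by rw [norm_one]))
      rw [norm_pow]; exact pow_le_one₀ (norm_nonneg _) hx
    have h7 : ‖nx P ^ 2 + 1‖ ^ 2 ≤ 1 := pow_le_one₀ (norm_nonneg _) h6
    linarith

theorem LHU.two_mul_card_le (h : LHU K π) (hr : RMap K k r) [Finite k] {d : Kˣ}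
    (hd : ‖(d : K)‖ = 1) :
    2 * Nat.card {c : k // r d * (c ^ 3 - c) ≠ 0 ∧ IsSquare (r d * (c ^ 3 - c))} ≤
      Nat.card (h.QM d) := by
  have hfin := h.finite_QM hr d
  set A := {c : k // r d * (c ^ 3 - c) ≠ 0 ∧ IsSquare (r d * (c ^ 3 - c))} with hA
  choose F hF0 hFx hFr hFf using fun a : A => h.pt_of_res hr hd a.2.1 a.2.2
  set G : A × Bool → E (d : K) := fun p => bif p.2 then F p.1 else -F p.1 with hG
  have hG0 : ∀ p, G p ∉ nb π (d : K) 0 := by
    rintro ⟨a, b⟩
    rw [h.not_mem_nb_iff d.ne_zero]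
    cases b
    · exact ⟨neg_ne_zero.2 (hF0 a), by simpa [hG] using hFx a⟩
    · exact ⟨hF0 a, hFx a⟩
  have hGx : ∀ p, nx (G p) = nx (F p.1) := by
    rintro ⟨a, b⟩
    cases b
    · simp [hG]
    · simp [hG]
  have hinj : Function.Injective (fun p : A × Bool => (Submodule.Quotient.mk (G p) : h.QM d)) := by
    rintro ⟨a, b⟩ ⟨a', b'⟩ hab
    have hmem : G (a, b) - G (a', b') ∈ nb π (d : K) 0 := (Submodule.Quotient.eq _).1 hab
    obtain ⟨-, -, -, hlt⟩ := h.res_conv h.odd d.ne_zero (hG0 (a', b')) hmem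
    rw [hGx, hGx] at hlt
    have haa : a = a' := by
      have := (hr.r_eq_iff h (hFx a) (hFx a')).2 hlt
      rw [hFr, hFr] at this
      exact Subtype.ext this
    subst haa
    have hbb : b = b' := by
      cases b <;> cases b'
      · rfl
      · exfalso
        have e : G (a, false) - G (a, true) = -(F a + F a) := by
          change -F a - F a = _
          rw [neg_add]; rfl
        rw [e] at hmem
        apply h.double_not_mem (hF0 a) (hFx a) (hFf a)
        have := neg_mem_nbh hmem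
        rwa [neg_neg] at this
      · exfalso
        have e : G (a, true) - G (a, false) = F a + F a := by
          change F a - -F a = _
          rw [sub_neg_eq_add]
        rw [e] at hmem
        exact h.double_not_mem (hF0 a) (hFx a) (hFf a) hmem
      · rfl
    rw [hbb]
  have hle : Nat.card (A × Bool) ≤ Nat.card (h.QM d) := Nat.card_le_card_of_injective _ hinj
  rw [Nat.card_prod, Nat.card_eq_fintype_card (α := Bool), Fintype.card_bool] at hle
  omega

end

/-- counting with the quadratic character -/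
theorem card_square_values (k : Type) [Field k] [Fintype k] [DecidableEq k] (i : k)
    (hi : i ^ 2 = -1) (h2 : (2 : k) ≠ 0) (d : k) (hd : d ≠ 0) (hk : 50 ≤ Fintype.card k) :
    Fintype.card k ≤
      4 * Nat.card {c : k // d * (c ^ 3 - c) ≠ 0 ∧ IsSquare (d * (c ^ 3 - c))} := by
  have hS := jac_bound k i hi h2 d hd
  set S : ℤ := ∑ x : k, quadraticChar k (d * (x ^ 3 - x)) with hSdef
  set A : Finset k := Finset.univ.filter
    (fun c : k => d * (c ^ 3 - c) ≠ 0 ∧ IsSquare (d * (c ^ 3 - c))) with hA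
  have hcardA : Nat.card {c : k // d * (c ^ 3 - c) ≠ 0 ∧ IsSquare (d * (c ^ 3 - c))} =
      A.card := by
    rw [Nat.card_eq_fintype_card, Fintype.card_subtype]
  set Z : Finset k := Finset.univ.filter (fun c : k => d * (c ^ 3 - c) = 0) with hZ
  have hZ3 : Z.card ≤ 3 := by
    have hsub : Z ⊆ {0, 1, -1} := by
      intro c hc
      rw [hZ, Finset.mem_filter] at hc
      have h1 : c * ((c - 1) * (c + 1)) = 0 := by
        have := (mul_eq_zero.1 hc.2).resolve_left hd
        linear_combination this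
      rcases mul_eq_zero.1 h1 with h3 | h3
      · simp [h3]
      · rcases mul_eq_zero.1 h3 with h4 | h4
        · simp [sub_eq_zero.1 h4]
        · simp [eq_neg_of_add_eq_zero_left h4]
    exact (Finset.card_le_card hsub).trans Finset.card_le_three
  have hpt : ∀ c : k, quadraticChar k (d * (c ^ 3 - c)) =
      2 * (if d * (c ^ 3 - c) ≠ 0 ∧ IsSquare (d * (c ^ 3 - c)) then 1 else 0) +
        (if d * (c ^ 3 - c) = 0 then 1 else 0) - 1 := by
    intro c
    by_cases h0 : d * (c ^ 3 - c) = 0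
    · simp [h0]
    · by_cases hs : IsSquare (d * (c ^ 3 - c))
      · rw [(quadraticChar_one_iff_isSquare h0).2 hs]
        simp [h0, hs]
      · rw [quadraticChar_neg_one_iff_not_isSquare.2 hs]
        simp [h0, hs]
  have hsum : S = 2 * (A.card : ℤ) + (Z.card : ℤ) - Fintype.card k := by
    rw [hSdef]
    simp only [hpt, Finset.sum_sub_distrib, Finset.sum_add_distrib, ← Finset.mul_sum]
    rw [Finset.sum_boole, Finset.sum_boole]
    simp [hA, hZ]
  rw [hcardA]
  by_contra hc
  push Not at hc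
  have h1 : (Z.card : ℤ) ≤ 3 := by exact_mod_cast hZ3
  have h3 : 4 * (A.card : ℤ) < Fintype.card k := by exact_mod_cast hc
  have h4 : (50 : ℤ) ≤ Fintype.card k := by exact_mod_cast hk
  have h5 : 2 * S < -(Fintype.card k : ℤ) + 6 := by
    rw [hsum]; linarith
  nlinarith

section

variable {K : Type} [NormedField K] [Algebra GaussianInt K] [NeZero (2 : K)] [DecidableEq K]
  {π : GaussianInt} {k : Type} [Field k] [Algebra GaussianInt k] {r : K → k}

theorem LHU.card_lower (h : LHU K π) (hr : RMap K k r) [Finite k] {d : Kˣ}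
    (hd : ‖(d : K)‖ = 1) (hk : 50 ≤ Nat.card k) : Nat.card k ≤ 2 * Nat.card (h.QM d) := by
  classical
  let _ : Fintype k := Fintype.ofFinite k
  have h1 := h.two_mul_card_le hr hd
  have hi : (algebraMap GaussianInt k ⟨0, 1⟩) ^ 2 = -1 := by
    rw [← map_pow]
    have : (⟨0, 1⟩ : GaussianInt) ^ 2 = -1 := by
      ext <;> simp [sq]
    rw [this, map_neg, map_one]
  rw [Nat.card_eq_fintype_card] at hk ⊢
  have h2 := card_square_values k _ hi (hr.two_ne h) (r d) (hr.ne_of_norm_one hd) hk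
  omega

end

end GWA
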